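import Pool.Agent.H121.GA.IfB
import Pool.Agent.H295.Z987.Clos

/-! Project GA: proof of `S_closR` (port of `Pool/Agent/H295/Z987/Clos.lean`). -/

set_option autoImplicit false

open scoped BigOperators InnerProductSpace Topology ENNReal
open Filter MeasureTheory

namespace Pool.Agent.H800.GA

open Pool.Agent.Y662.TR (LL Cf Mw dv hu approx open_le po_lint po_mass po_nonneg)
open Pool.Agent.TH369.MU (ep zk)
open Pool.Agent.TH369.MU.PO2 (ep_pos ep_tendsto)
open Pool.Agent.W883.LL (P P_nonneg P_cont P_integrable P_integral)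
open Pool.Agent.TH794.LL2 (Po Po_int Po_im)
open Pool.Agent.H295.Z987 (up)
open Pool.Agent.H121.GA

/-- `√ε_k ‖R(z_k) φ‖` -/
noncomputable def qR {ι : Type} (R : ℂ → LL ι →L[ℂ] LL ι) (E : ℝ) (k : ℕ) (φ : LL ι) : ℝ :=
  Real.sqrt (ep k) * ‖R (zk E k) φ‖

section basic

variable {ι : Type}

theorem qR_nonneg (R : ℂ → LL ι →L[ℂ] LL ι) (E : ℝ) (k : ℕ) (φ : LL ι) : 0 ≤ qR R E k φ := by
  unfold qR
  positivity

theorem qR_add (R : ℂ → LL ι →L[ℂ] LL ι) (E : ℝ) (k : ℕ) (φ ψ : LL ι) :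
    qR R E k (φ + ψ) ≤ qR R E k φ + qR R E k ψ := by
  unfold qR
  rw [map_add, ← mul_add]
  exact mul_le_mul_of_nonneg_left (norm_add_le _ _) (Real.sqrt_nonneg _)

theorem qR_smul (R : ℂ → LL ι →L[ℂ] LL ι) (E : ℝ) (k : ℕ) (a : ℂ) (φ : LL ι) :
    qR R E k (a • φ) = ‖a‖ * qR R E k φ := by
  unfold qR
  rw [map_smul, norm_smul]
  ring

theorem qR_sum (R : ℂ → LL ι →L[ℂ] LL ι) (E : ℝ) (k : ℕ) {κ : Type} (s : Finset κ) (a : κ → ℂ)
    (g : κ → LL ι) : qR R E k (∑ j ∈ s, a j • g j) ≤ ∑ j ∈ s, ‖a j‖ * qR R E k (g j) := by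
  classical
  induction s using Finset.induction_on with
  | empty => simp [qR]
  | insert i s hi ih =>
    rw [Finset.sum_insert hi, Finset.sum_insert hi]
    refine (qR_add R E k _ _).trans ?_
    rw [qR_smul]
    linarith

/-- the imaginary part of the Green function -/
theorem im_eq {R : ℂ → LL ι →L[ℂ] LL ι} (hR : Rf R) (z : ℂ) (hz : z.im ≠ 0) (φ : LL ι) :
    (⟪φ, R z φ⟫_ℂ).im = z.im * ‖R z φ‖ ^ 2 := by
  have hz' : (starRingEnd ℂ z).im ≠ 0 := by simpa using hz
  have h1 := hR.id (starRingEnd ℂ z) z hz' hz φ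
  have h2 : ⟪φ, R (starRingEnd ℂ z) φ⟫_ℂ - ⟪φ, R z φ⟫_ℂ =
      (starRingEnd ℂ z - z) * ⟪R z φ, R z φ⟫_ℂ := by
    rw [hR.ad z hz φ (R z φ), ← inner_sub_right, h1, inner_smul_right]
  have h3 : ⟪φ, R (starRingEnd ℂ z) φ⟫_ℂ = starRingEnd ℂ ⟪φ, R z φ⟫_ℂ := by
    rw [← hR.ad z hz φ φ, inner_conj_symm]
  rw [h3, inner_self_eq_norm_sq_to_K] at h2
  have h4 := congrArg Complex.im h2
  have h5 : ((starRingEnd ℂ z - z) * ((‖R z φ‖ : ℝ) : ℂ) ^ 2).im = -2 * (z.im * ‖R z φ‖ ^ 2) := by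
    rw [← Complex.ofReal_pow, Complex.im_mul_ofReal]
    simp only [Complex.sub_im, Complex.conj_im]
    ring
  have h6 : (starRingEnd ℂ ⟪φ, R z φ⟫_ℂ - ⟪φ, R z φ⟫_ℂ).im = -2 * (⟪φ, R z φ⟫_ℂ).im := by
    simp only [Complex.sub_im, Complex.conj_im]
    ring
  rw [h6] at h4
  have h7 := h4.trans h5
  linarith

theorem zk_eq (E : ℝ) (k : ℕ) : zk E k = (E : ℂ) + (ep k : ℂ) * Complex.I := rfl

theorem zk_im (E : ℝ) (k : ℕ) : (zk E k).im = ep k := by rw [zk_eq]; simp

/-- the seminorms are Poisson integrals -/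
theorem qR_po {R : ℂ → LL ι →L[ℂ] LL ι} (hR : Rf R) (φ : LL ι) (m : Measure ℝ) (hm : SpR R φ m)
    (E : ℝ) (k : ℕ) : qR R E k φ ^ 2 = Po m E (ep k) := by
  haveI := hm.1
  have hz : (zk E k).im ≠ 0 := by rw [zk_im]; exact (ep_pos k).ne'
  have h1 : qR R E k φ ^ 2 = (⟪φ, R (zk E k) φ⟫_ℂ).im := by
    rw [im_eq hR _ hz, zk_im]
    unfold qR
    rw [mul_pow, Real.sq_sqrt (ep_pos k).le]
  rw [h1, hm.2 _ hz, zk_eq, Po_im m E (ep k) (ep_pos k)]

theorem spR_mass {R : ℂ → LL ι →L[ℂ] LL ι} (hR : Rf R) (φ : LL ι) :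
    ∃ m : Measure ℝ, SpR R φ m ∧ m.real Set.univ = ‖φ‖ ^ 2 := by
  obtain ⟨m, hm, hu⟩ := hR.sp φ
  refine ⟨m, hm, ?_⟩
  rw [measureReal_def, hu, ENNReal.toReal_ofReal (by positivity)]

/-- measurability in the energy -/
theorem qR_ae {R : ℂ → LL ι →L[ℂ] LL ι} (hR : Rf R) (φ : LL ι) (k : ℕ) (U : Set ℝ) :
    AEMeasurable (fun E => ENNReal.ofReal (qR R E k φ ^ 2)) (volume.restrict U) := by
  obtain ⟨m, hm, hu⟩ := spR_mass hR φ
  haveI := hm.1
  simp only [qR_po hR φ m hm]
  have := (po_mass m (ep k) (ep_pos k)).1.aestronglyMeasurable.aemeasurable.ennreal_ofReal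
  exact this.restrict

/-- the total mass -/
theorem qR_mass {R : ℂ → LL ι →L[ℂ] LL ι} (hR : Rf R) (φ : LL ι) (k : ℕ) (U : Set ℝ) :
    ∫⁻ E in U, ENNReal.ofReal (qR R E k φ ^ 2) ≤ ENNReal.ofReal (4 * ‖φ‖ ^ 2) := by
  obtain ⟨m, hm, hu⟩ := spR_mass hR φ
  haveI := hm.1
  simp only [qR_po hR φ m hm]
  obtain ⟨h1, h2⟩ := po_mass m (ep k) (ep_pos k)
  refine (setLIntegral_le_lintegral _ _).trans ?_
  rw [← ofReal_integral_eq_lintegral_ofReal h1
    (Eventually.of_forall fun E => po_nonneg m E (ep k) (ep_pos k)), h2, hu]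
  have := Real.pi_lt_four
  gcongr

end basic

/-- the pointwise bound -/
theorem hpt_gen {ι : Type} (R : ℂ → LL ι →L[ℂ] LL ι) (φ : LL ι) (s : Finset ι) (E : ℝ) (k : ℕ) :
    qR R E k φ ^ 2 ≤ (2 * ∑ x ∈ s, ‖φ x‖ ^ 2) * ∑ x ∈ s, qR R E k (dv x) ^ 2 +
      2 * qR R E k (φ - ∑ x ∈ s, φ x • dv x) ^ 2 := by
  obtain ⟨r, hr⟩ : ∃ r, r = φ - ∑ x ∈ s, φ x • dv x := ⟨_, rfl⟩
  rw [← hr]
  have h1 : φ = (∑ x ∈ s, φ x • dv x) + r := by rw [hr]; abel
  have h2 := qR_add R E k (∑ x ∈ s, φ x • dv x) r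
  rw [← h1] at h2
  have h3 := qR_sum R E k s (fun x => φ x) dv
  have h4 : qR R E k φ ≤ (∑ x ∈ s, ‖φ x‖ * qR R E k (dv x)) + qR R E k r := by linarith
  have h5 : qR R E k φ ^ 2 ≤ ((∑ x ∈ s, ‖φ x‖ * qR R E k (dv x)) + qR R E k r) ^ 2 :=
    pow_le_pow_left₀ (qR_nonneg _ _ _ _) h4 2
  have h6 := Finset.sum_mul_sq_le_sq_mul_sq s (fun x => ‖φ x‖) (fun x => qR R E k (dv x))
  nlinarith [sq_nonneg ((∑ x ∈ s, ‖φ x‖ * qR R E k (dv x)) - qR R E k r)]

/-- a compact set which is null for all the sites is null -/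
theorem comp_null {ι : Type} {R : ℂ → LL ι →L[ℂ] LL ι} (hR : Rf R)
    (M : ι → Measure ℝ) (hM : ∀ x, SpR R (dv x) (M x)) (φ : LL ι) (m : Measure ℝ) (hm : SpR R φ m)
    (K : Set ℝ) (hK : IsCompact K) (h0 : ∀ x, M x K = 0) : m K = 0 := by
  haveI := hm.1
  haveI : ∀ x, IsFiniteMeasure (M x) := fun x => (hM x).1
  have key : ∀ δ : ℝ, 0 < δ → m K ≤ ENNReal.ofReal (8 * δ ^ 2) := by
    intro δ hδ
    obtain ⟨s, hs⟩ := approx φ δ hδ
    obtain ⟨r, hr⟩ : ∃ r, r = φ - ∑ x ∈ s, φ x • dv x := ⟨_, rfl⟩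
    rw [← hr] at hs
    obtain ⟨N, hN⟩ : ∃ N, N = 2 * ∑ x ∈ s, ‖φ x‖ ^ 2 := ⟨_, rfl⟩
    have hN0 : 0 ≤ N := by rw [hN]; positivity
    -- fixed neighbourhood
    have hfix : ∀ ρ : ℝ, 0 < ρ → m K ≤ ENNReal.ofReal N * ∑ x ∈ s,
        ENNReal.ofReal Real.pi * M x (Metric.cthickening (2 * ρ) K) +
          ENNReal.ofReal (8 * δ ^ 2) := by
      intro ρ hρ
      have hv : volume (Metric.thickening ρ K) ≠ ∞ :=
        (hK.isBounded.thickening (δ := ρ)).measure_lt_top.ne
      have hk : ∀ k, ∫⁻ E in Metric.thickening ρ K, ENNReal.ofReal (Po m E (ep k)) ≤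
          ENNReal.ofReal N * ∑ x ∈ s,
            (ENNReal.ofReal Real.pi * M x (Metric.cthickening (2 * ρ) K) +
              ENNReal.ofReal (ep k / ρ ^ 2) * volume (Metric.thickening ρ K) * M x Set.univ) +
            ENNReal.ofReal (8 * δ ^ 2) := by
        intro k
        have hpt : ∀ E, qR R E k φ ^ 2 ≤ N * ∑ x ∈ s, qR R E k (dv x) ^ 2 +
            2 * qR R E k r ^ 2 := by
          intro E
          rw [hN, hr]
          exact hpt_gen R φ s E k
        calc ∫⁻ E in Metric.thickening ρ K, ENNReal.ofReal (Po m E (ep k)) =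
              ∫⁻ E in Metric.thickening ρ K, ENNReal.ofReal (qR R E k φ ^ 2) := by
                simp only [qR_po hR φ m hm]
          _ ≤ ∫⁻ E in Metric.thickening ρ K, (ENNReal.ofReal N *
                ∑ x ∈ s, ENNReal.ofReal (qR R E k (dv x) ^ 2) +
                2 * ENNReal.ofReal (qR R E k r ^ 2)) := by
                refine lintegral_mono fun E => ?_
                refine (ENNReal.ofReal_le_ofReal (hpt E)).trans (le_of_eq ?_)
                rw [ENNReal.ofReal_add (mul_nonneg hN0 (Finset.sum_nonneg fun x _ => sq_nonneg _))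
                  (by positivity), ENNReal.ofReal_mul hN0, ENNReal.ofReal_mul (by norm_num),
                  ENNReal.ofReal_sum_of_nonneg (fun x _ => sq_nonneg _)]
                norm_num
          _ = ENNReal.ofReal N * ∑ x ∈ s,
                (∫⁻ E in Metric.thickening ρ K, ENNReal.ofReal (qR R E k (dv x) ^ 2)) +
                2 * ∫⁻ E in Metric.thickening ρ K, ENNReal.ofReal (qR R E k r ^ 2) := by
                have m1 : AEMeasurable (fun E => ∑ x ∈ s, ENNReal.ofReal (qR R E k (dv x) ^ 2))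
                    (volume.restrict (Metric.thickening ρ K)) :=
                  Finset.aemeasurable_fun_sum s fun x _ => qR_ae hR (dv x) k _
                rw [lintegral_add_left' (m1.const_mul _), lintegral_const_mul'' _ m1,
                  lintegral_finsetSum' s fun x _ => qR_ae hR (dv x) k _,
                  lintegral_const_mul'' _ (qR_ae hR r k _)]
          _ ≤ _ := by
                gcongr with x hx
                · refine le_trans (le_of_eq ?_) (up (M x) K ρ (ep k) hρ (ep_pos k))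
                  simp only [qR_po hR (dv x) (M x) (hM x)]
                · calc 2 * ∫⁻ E in Metric.thickening ρ K, ENNReal.ofReal (qR R E k r ^ 2) ≤
                        2 * ENNReal.ofReal (4 * ‖r‖ ^ 2) := by
                          gcongr
                          exact qR_mass hR r k _
                    _ ≤ ENNReal.ofReal (8 * δ ^ 2) := by
                        have h7 : ‖r‖ ^ 2 ≤ δ ^ 2 := by gcongr
                        have h8 : ∀ x : ℝ, 2 * ENNReal.ofReal x = ENNReal.ofReal (2 * x) := by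
                          intro x
                          rw [ENNReal.ofReal_mul (by norm_num)]
                          norm_num
                        rw [h8]
                        apply ENNReal.ofReal_le_ofReal
                        linarith
      have hlim : Tendsto (fun k => ENNReal.ofReal N * ∑ x ∈ s,
            (ENNReal.ofReal Real.pi * M x (Metric.cthickening (2 * ρ) K) +
              ENNReal.ofReal (ep k / ρ ^ 2) * volume (Metric.thickening ρ K) * M x Set.univ) +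
            ENNReal.ofReal (8 * δ ^ 2)) atTop (𝓝 (ENNReal.ofReal N * ∑ x ∈ s,
            (ENNReal.ofReal Real.pi * M x (Metric.cthickening (2 * ρ) K) +
              ENNReal.ofReal (0 / ρ ^ 2) * volume (Metric.thickening ρ K) * M x Set.univ) +
            ENNReal.ofReal (8 * δ ^ 2))) := by
        refine Tendsto.add ?_ tendsto_const_nhds
        refine ENNReal.Tendsto.const_mul ?_ (Or.inr ENNReal.ofReal_ne_top)
        refine tendsto_finsetSum _ fun x _ => ?_
        refine tendsto_const_nhds.add ?_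
        refine ENNReal.Tendsto.mul_const ?_ (Or.inr (measure_ne_top _ _))
        refine ENNReal.Tendsto.mul_const ?_ (Or.inr hv)
        refine (ENNReal.continuous_ofReal.tendsto _).comp ?_
        exact ((tendsto_nhdsWithin_iff.1 ep_tendsto).1).div_const _
      simp only [zero_div, ENNReal.ofReal_zero, zero_mul, add_zero] at hlim
      calc m K ≤ m (Metric.thickening ρ K) := measure_mono (Metric.self_subset_thickening hρ K)
        _ ≤ liminf (fun k => ∫⁻ E in Metric.thickening ρ K, ENNReal.ofReal (Po m E (ep k))) atTop :=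
            open_le m _ Metric.isOpen_thickening
        _ ≤ liminf (fun k => ENNReal.ofReal N * ∑ x ∈ s,
            (ENNReal.ofReal Real.pi * M x (Metric.cthickening (2 * ρ) K) +
              ENNReal.ofReal (ep k / ρ ^ 2) * volume (Metric.thickening ρ K) * M x Set.univ) +
            ENNReal.ofReal (8 * δ ^ 2)) atTop := liminf_le_liminf (Eventually.of_forall hk)
        _ = _ := hlim.liminf_eq
    -- shrink the neighbourhood
    have hlim2 : Tendsto (fun n : ℕ => ENNReal.ofReal N * ∑ x ∈ s,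
        ENNReal.ofReal Real.pi * M x (Metric.cthickening (2 * (1 / ((n : ℝ) + 1))) K) +
          ENNReal.ofReal (8 * δ ^ 2)) atTop (𝓝 (ENNReal.ofReal N * ∑ x ∈ s,
        ENNReal.ofReal Real.pi * M x K + ENNReal.ofReal (8 * δ ^ 2))) := by
      refine Tendsto.add ?_ tendsto_const_nhds
      refine ENNReal.Tendsto.const_mul ?_ (Or.inr ENNReal.ofReal_ne_top)
      refine tendsto_finsetSum _ fun x _ => ?_
      refine ENNReal.Tendsto.const_mul ?_ (Or.inr ENNReal.ofReal_ne_top)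
      have h1 : Tendsto (fun n : ℕ => 2 * (1 / ((n : ℝ) + 1))) atTop (𝓝 0) := by
        have := (tendsto_one_div_add_atTop_nhds_zero_nat (𝕜 := ℝ)).const_mul 2
        simpa using this
      exact (tendsto_measure_cthickening_of_isCompact hK).comp h1
    have h3 := ge_of_tendsto' hlim2 (fun n => hfix (1 / ((n : ℝ) + 1)) (by positivity))
    simpa [h0] using h3
  have h2 : Tendsto (fun n : ℕ => ENNReal.ofReal (8 * (1 / ((n : ℝ) + 1)) ^ 2)) atTop
      (𝓝 (ENNReal.ofReal (8 * 0 ^ 2))) :=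
    (ENNReal.continuous_ofReal.tendsto _).comp
      ((tendsto_one_div_add_atTop_nhds_zero_nat.pow 2).const_mul 8)
  have h3 := ge_of_tendsto' h2 (fun n => key _ (by positivity))
  simpa using h3

/-- **GA-CLOSR** -/
theorem closR : S_closR := by
  intro ι _ R hR N hN hy φ m hm
  choose M hM hM0 using hy
  haveI := hm.1
  rw [MeasurableSet.measure_eq_iSup_isCompact hN]
  simp only [ENNReal.iSup_eq_zero]
  intro K hKs hK
  exact comp_null hR M hM φ m hm K hK fun x => measure_mono_null hKs (hM0 x)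

end Pool.Agent.H800.GA
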